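import Mathlib

/-!
# MP_8926dc_co: the proposed value of `k_r(k_p ≤ f_p(s,t+1) - 1)` is wrong.
-/

namespace Pool.Agent.Results.MP_8926dc_co.TwoExtraVertices

open Finset

/-- the number `k_j(G)` of complete subgraphs on `j` vertices of `G` -/
noncomputable def k (j : ℕ) {V : Type} (G : SimpleGraph V) : ℕ :=
  {S : Finset V | G.IsNClique j S}.ncard

/-- `f_j(s,t) = C(s,j) + C(t,j-1)` -/
def f (j s t : ℕ) : ℕ := s.choose j + t.choose (j - 1)

/-- the equality `k_r(k_p ≤ f_p(s,t+1) - 1) = f_r(s,t)`: the maximum of `k_r(G)` over all finite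
graphs `G` with `k_p(G) ≤ f_p(s,t+1) - 1` is `f_r(s,t)` -/
def Holds (p r s t : ℕ) : Prop :=
  IsGreatest {m : ℕ | ∃ (n : ℕ) (G : SimpleGraph (Fin n)),
    k p G ≤ f p s (t + 1) - 1 ∧ k r G = m} (f r s t)

/-- the statement of Q1 -/
def Q1 : Prop :=
  ∀ p r s t : ℕ, 3 ≤ p → p < r → r ≤ s → p - 2 ≤ t → t < s → Holds p r s t

/-- `K^s` (vertices `0,…,s-1`), a vertex `s` joined to the first `t` vertices, and a vertex `s+1`
joined to the first `q` vertices -/
def Gr (s t q : ℕ) : SimpleGraph (Fin (s + 2)) :=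
  SimpleGraph.fromRel (fun a b => a.val < b.val ∧
    (b.val < s ∨ (b.val = s ∧ a.val < t) ∨ (b.val = s + 1 ∧ a.val < q)))

/-- initial segment -/
def T (s m : ℕ) : Finset (Fin (s + 2)) := univ.filter (fun i => i.val < m)

theorem card_T {s m : ℕ} (h : m ≤ s) : (T s m).card = m := by
  unfold T
  rw [Fin.card_filter_val_lt]
  omega

theorem mem_T {s m : ℕ} {i : Fin (s + 2)} : i ∈ T s m ↔ i.val < m := by simp [T]

/-- the vertex `s` -/
def u (s : ℕ) : Fin (s + 2) := ⟨s, by omega⟩
/-- the vertex `s+1` -/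
def w (s : ℕ) : Fin (s + 2) := ⟨s + 1, by omega⟩

theorem adj {s t q : ℕ} (a b : Fin (s + 2)) : (Gr s t q).Adj a b ↔ a ≠ b ∧
    ((a.val < b.val ∧ (b.val < s ∨ (b.val = s ∧ a.val < t) ∨ (b.val = s + 1 ∧ a.val < q))) ∨
    (b.val < a.val ∧ (a.val < s ∨ (a.val = s ∧ b.val < t) ∨ (a.val = s + 1 ∧ b.val < q)))) := by
  simp [Gr, SimpleGraph.fromRel_adj]

/-- the family of `j`-cliques -/
def Fam (s t q j : ℕ) : Finset (Finset (Fin (s + 2))) :=
  powersetCard j (T s s) ∪ (powersetCard (j - 1) (T s t)).image (insert (u s)) ∪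
    (powersetCard (j - 1) (T s q)).image (insert (w s))

theorem u_nmem {s m : ℕ} (h : m ≤ s) : u s ∉ T s m := by
  rw [mem_T]; simp [u]; omega

theorem w_nmem {s m : ℕ} (h : m ≤ s) : w s ∉ T s m := by
  rw [mem_T]; simp [w]; omega

theorem card_Fam {s t q j : ℕ} (_hj : 1 ≤ j) (ht : t ≤ s) (hq : q ≤ s) :
    (Fam s t q j).card = s.choose j + t.choose (j - 1) + q.choose (j - 1) := by
  have huw : u s ≠ w s := by
    intro h
    have := congrArg Fin.val h
    simp [u, w] at this
  have inj : ∀ (v : Fin (s + 2)) (m : ℕ), v ∉ T s m →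
      Set.InjOn (insert v) (powersetCard (j - 1) (T s m) : Set (Finset (Fin (s + 2)))) := by
    intro v m hv X hX Y hY hXY
    rw [mem_coe, mem_powersetCard] at hX hY
    have hX' : v ∉ X := fun h => hv (hX.1 h)
    have hY' : v ∉ Y := fun h => hv (hY.1 h)
    have := congrArg (fun Z => Finset.erase Z v) hXY
    simpa [Finset.erase_insert hX', Finset.erase_insert hY'] using this
  unfold Fam
  rw [card_union_of_disjoint, card_union_of_disjoint, card_image_of_injOn (inj _ _ (u_nmem ht)),
    card_image_of_injOn (inj _ _ (w_nmem hq)), card_powersetCard, card_powersetCard,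
    card_powersetCard, card_T le_rfl, card_T ht, card_T hq]
  · rw [disjoint_left]
    intro X hX hX'
    rw [mem_powersetCard] at hX
    rw [mem_image] at hX'
    obtain ⟨Y, _, rfl⟩ := hX'
    exact u_nmem le_rfl (hX.1 (mem_insert_self _ _))
  · rw [disjoint_left]
    intro X hX hX'
    rw [mem_image] at hX'
    obtain ⟨Y, _, rfl⟩ := hX'
    rw [mem_union] at hX
    rcases hX with hX | hX
    · rw [mem_powersetCard] at hX
      exact w_nmem le_rfl (hX.1 (mem_insert_self _ _))
    · rw [mem_image] at hX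
      obtain ⟨Z, hZ, hZY⟩ := hX
      have : w s ∈ insert (u s) Z := by rw [hZY]; exact mem_insert_self _ _
      rw [mem_insert] at this
      rcases this with h | h
      · exact huw h.symm
      · rw [mem_powersetCard] at hZ
        exact w_nmem ht (hZ.1 h)

theorem mem_Fam {s t q j : ℕ} (hj : 1 ≤ j) (ht : t ≤ s) (hq : q ≤ s)
    (S : Finset (Fin (s + 2))) : (Gr s t q).IsNClique j S ↔ S ∈ Fam s t q j := by
  rw [SimpleGraph.isNClique_iff]
  unfold Fam
  constructor
  · rintro ⟨hc, hcard⟩
    rw [mem_union, mem_union]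
    by_cases hu : u s ∈ S
    · left; right
      rw [mem_image]
      refine ⟨S.erase (u s), ?_, insert_erase hu⟩
      rw [mem_powersetCard, card_erase_of_mem hu, hcard]
      refine ⟨?_, rfl⟩
      intro x hx
      rw [mem_erase] at hx
      have := hc (mem_coe.2 hx.2) (mem_coe.2 hu) hx.1
      rw [adj] at this
      rw [mem_T]
      have hus : (u s).val = s := rfl
      rw [hus] at this
      have hxl := x.2
      rcases this.2 with h | h
      · rcases h.2 with h' | h' | h' <;> omega
      · rcases h.2 with h' | h' | h' <;> omega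
    · by_cases hw : w s ∈ S
      · right
        rw [mem_image]
        refine ⟨S.erase (w s), ?_, insert_erase hw⟩
        rw [mem_powersetCard, card_erase_of_mem hw, hcard]
        refine ⟨?_, rfl⟩
        intro x hx
        rw [mem_erase] at hx
        have := hc (mem_coe.2 hx.2) (mem_coe.2 hw) hx.1
        rw [adj] at this
        rw [mem_T]
        have hus : (w s).val = s + 1 := rfl
        rw [hus] at this
        have hxl := x.2
        rcases this.2 with h | h
        · rcases h.2 with h' | h' | h' <;> omega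
        · rcases h.2 with h' | h' | h' <;> omega
      · left; left
        rw [mem_powersetCard]
        refine ⟨?_, hcard⟩
        intro x hx
        rw [mem_T]
        have hxl := x.2
        by_contra hcon
        have : x.val = s ∨ x.val = s + 1 := by omega
        rcases this with h | h
        · exact hu (by have : x = u s := Fin.ext h
                       rw [← this]; exact hx)
        · exact hw (by have : x = w s := Fin.ext h
                       rw [← this]; exact hx)
  · intro h
    rw [mem_union, mem_union] at h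
    rcases h with (h | h) | h
    · rw [mem_powersetCard] at h
      refine ⟨?_, h.2⟩
      intro a ha b hb hab
      have h1 := mem_T.1 (h.1 ha)
      have h2 := mem_T.1 (h.1 hb)
      have hne : a.val ≠ b.val := fun h => hab (Fin.ext h)
      rw [adj]
      refine ⟨hab, ?_⟩
      rcases Nat.lt_or_gt_of_ne hne with h3 | h3
      · left; exact ⟨h3, Or.inl h2⟩
      · right; exact ⟨h3, Or.inl h1⟩
    · rw [mem_image] at h
      obtain ⟨Y, hY, rfl⟩ := h
      rw [mem_powersetCard] at hY
      have hu : u s ∉ Y := fun h => u_nmem ht (hY.1 h)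
      refine ⟨?_, by rw [card_insert_of_notMem hu, hY.2]; omega⟩
      rw [coe_insert, SimpleGraph.isClique_insert]
      have hus : (u s).val = s := rfl
      refine ⟨?_, ?_⟩
      · intro a ha b hb hab
        have h1 := mem_T.1 (hY.1 ha)
        have h2 := mem_T.1 (hY.1 hb)
        have hne : a.val ≠ b.val := fun h => hab (Fin.ext h)
        rw [adj]
        refine ⟨hab, ?_⟩
        rcases Nat.lt_or_gt_of_ne hne with h3 | h3
        · left; exact ⟨h3, Or.inl (by omega)⟩
        · right; exact ⟨h3, Or.inl (by omega)⟩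
      · intro b hb hab
        have h2 := mem_T.1 (hY.1 hb)
        rw [adj]
        refine ⟨hab, Or.inr ⟨by omega, Or.inr (Or.inl ⟨hus, h2⟩)⟩⟩
    · rw [mem_image] at h
      obtain ⟨Y, hY, rfl⟩ := h
      rw [mem_powersetCard] at hY
      have hw : w s ∉ Y := fun h => w_nmem hq (hY.1 h)
      refine ⟨?_, by rw [card_insert_of_notMem hw, hY.2]; omega⟩
      rw [coe_insert, SimpleGraph.isClique_insert]
      have hus : (w s).val = s + 1 := rfl
      refine ⟨?_, ?_⟩
      · intro a ha b hb hab
        have h1 := mem_T.1 (hY.1 ha)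
        have h2 := mem_T.1 (hY.1 hb)
        have hne : a.val ≠ b.val := fun h => hab (Fin.ext h)
        rw [adj]
        refine ⟨hab, ?_⟩
        rcases Nat.lt_or_gt_of_ne hne with h3 | h3
        · left; exact ⟨h3, Or.inl (by omega)⟩
        · right; exact ⟨h3, Or.inl (by omega)⟩
      · intro b hb hab
        have h2 := mem_T.1 (hY.1 hb)
        rw [adj]
        refine ⟨hab, Or.inr ⟨by omega, Or.inr (Or.inr ⟨hus, h2⟩)⟩⟩

theorem k_Gr {s t q j : ℕ} (hj : 1 ≤ j) (ht : t ≤ s) (hq : q ≤ s) :
    k j (Gr s t q) = s.choose j + t.choose (j - 1) + q.choose (j - 1) := by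
  unfold k
  have : {S : Finset (Fin (s + 2)) | (Gr s t q).IsNClique j S}
      = ((Fam s t q j : Finset (Finset (Fin (s + 2)))) : Set (Finset (Fin (s + 2)))) := by
    ext S
    rw [Set.mem_ofPred_eq, mem_coe]
    exact mem_Fam hj ht hq S
  rw [this, Set.ncard_coe_finset, card_Fam hj ht hq]

theorem fails {p r s t : ℕ} (hp : 3 ≤ p) (hpr : p < r) (hrs : r ≤ s) (hts : t < s)
    (h : (r - 1).choose (p - 1) < t.choose (p - 2)) :
    k p (Gr s t (r - 1)) ≤ f p s (t + 1) - 1 ∧ k r (Gr s t (r - 1)) = f r s t + 1 := by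
  rw [k_Gr (by omega) hts.le (by omega), k_Gr (by omega) hts.le (by omega)]
  unfold f
  constructor
  · have h1 : (t + 1).choose (p - 1) = t.choose (p - 2) + t.choose (p - 1) := by
      obtain ⟨p', rfl⟩ : ∃ p', p = p' + 2 := ⟨p - 2, by omega⟩
      have e1 : p' + 2 - 1 = p' + 1 := by omega
      have e2 : p' + 2 - 2 = p' := by omega
      rw [e1, e2]
      exact Nat.choose_succ_succ t p'
    rw [h1]
    omega
  · rw [Nat.choose_self]

theorem choose_lower (m a : ℕ) : m + 1 ≤ (m + (a + 1)).choose (a + 1) := by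
  induction a with
  | zero => simp
  | succ a ih =>
    have : (m + (a + 1 + 1)).choose (a + 1 + 1)
        = (m + (a + 1)).choose (a + 1) + (m + (a + 1)).choose (a + 1 + 1) := by
      rw [← add_assoc m (a + 1) 1]
      exact Nat.choose_succ_succ _ _
    omega

theorem result :
    (∀ p r s t : ℕ, 3 ≤ p → p < r → r ≤ s → t < s →
      (r - 1).choose (p - 1) < t.choose (p - 2) →
      ∃ G : SimpleGraph (Fin (s + 2)), k p G ≤ f p s (t + 1) - 1 ∧ k r G = f r s t + 1) ∧
    (∀ p r : ℕ, 3 ≤ p → p < r → ∃ t₀ : ℕ, p - 2 ≤ t₀ ∧ ∀ s : ℕ, r ≤ s → t₀ < s →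
      ¬ Holds p r s t₀) ∧
    ¬ Holds 3 4 5 4 ∧
    ¬ Q1 := by
  have A : ∀ p r s t : ℕ, 3 ≤ p → p < r → r ≤ s → t < s →
      (r - 1).choose (p - 1) < t.choose (p - 2) → ¬ Holds p r s t := by
    intro p r s t hp hpr hrs hts h H
    have h1 := fails hp hpr hrs hts h
    have := H.2 ⟨s + 2, Gr s t (r - 1), h1.1, h1.2⟩
    omega
  have B : ¬ Holds 3 4 5 4 := by
    apply A 3 4 5 4 (by norm_num) (by norm_num) (by norm_num) (by norm_num)
    decide
  refine ⟨fun p r s t hp hpr hrs hts h => ⟨Gr s t (r - 1), fails hp hpr hrs hts h⟩, ?_, B, ?_⟩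
  · intro p r hp hpr
    refine ⟨(r - 1).choose (p - 1) + (p - 2), by omega, ?_⟩
    intro s hrs hts
    apply A p r s _ hp hpr hrs hts
    have := choose_lower ((r - 1).choose (p - 1)) (p - 3)
    have e : p - 3 + 1 = p - 2 := by omega
    rw [e] at this
    omega
  · intro H
    exact B (H 3 4 5 4 (by norm_num) (by norm_num) (by norm_num) (by norm_num) (by norm_num))

end Pool.Agent.Results.MP_8926dc_co.TwoExtraVertices
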